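import Pool.Agent.W820.KH.Defs

/-! KH-BUMP: rotation invariant bump functions. -/

set_option autoImplicit false

open Set Filter Topology
open scoped ContDiff

namespace Pool.Agent.W22.KH

open Pool.Agent.W820.KH

/-- the invariants of the rotation -/
noncomputable def Inv (v : E) : Fin 6 → ℝ :=
  ![u v, v.2 0 ^ 2 + v.2 1 ^ 2, v.1 0 * v.2 0 + v.1 1 * v.2 1, L v, v.1 2, v.2 2]

lemma inv_rot (c d : ℝ) (h : c ^ 2 + d ^ 2 = 1) (v : E) : Inv (rot c d v) = Inv v := by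
  funext i
  fin_cases i
  · change (c * v.1 0 - d * v.1 1) ^ 2 + (d * v.1 0 + c * v.1 1) ^ 2 = v.1 0 ^ 2 + v.1 1 ^ 2
    linear_combination (v.1 0 ^ 2 + v.1 1 ^ 2) * h
  · change (c * v.2 0 - d * v.2 1) ^ 2 + (d * v.2 0 + c * v.2 1) ^ 2 = v.2 0 ^ 2 + v.2 1 ^ 2
    linear_combination (v.2 0 ^ 2 + v.2 1 ^ 2) * h
  · change (c * v.1 0 - d * v.1 1) * (c * v.2 0 - d * v.2 1) +
      (d * v.1 0 + c * v.1 1) * (d * v.2 0 + c * v.2 1) = v.1 0 * v.2 0 + v.1 1 * v.2 1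
    linear_combination (v.1 0 * v.2 0 + v.1 1 * v.2 1) * h
  · change (c * v.1 0 - d * v.1 1) * (d * v.2 0 + c * v.2 1) -
      (d * v.1 0 + c * v.1 1) * (c * v.2 0 - d * v.2 1) = v.1 0 * v.2 1 - v.1 1 * v.2 0
    linear_combination (v.1 0 * v.2 1 - v.1 1 * v.2 0) * h
  · rfl
  · rfl

lemma contDiff_x (i : Fin 3) : ContDiff ℝ ∞ (fun v : E => v.1 i) :=
  (contDiff_apply ℝ ℝ i).comp contDiff_fst

lemma contDiff_p (i : Fin 3) : ContDiff ℝ ∞ (fun v : E => v.2 i) :=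
  (contDiff_apply ℝ ℝ i).comp contDiff_snd

lemma contDiff_Inv : ContDiff ℝ ∞ Inv := by
  rw [contDiff_pi]
  intro i
  fin_cases i
  · exact ((contDiff_x 0).pow 2).add ((contDiff_x 1).pow 2)
  · exact ((contDiff_p 0).pow 2).add ((contDiff_p 1).pow 2)
  · exact ((contDiff_x 0).mul (contDiff_p 0)).add ((contDiff_x 1).mul (contDiff_p 1))
  · exact ((contDiff_x 0).mul (contDiff_p 1)).sub ((contDiff_x 1).mul (contDiff_p 0))
  · exact contDiff_x 2
  · exact contDiff_p 2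

lemma abs_le_of_sq_le {t M : ℝ} (h : t ^ 2 ≤ M) : |t| ≤ M + 1 := by
  rw [abs_le]
  constructor <;> nlinarith [sq_nonneg (t - 1 / 2), sq_nonneg (t + 1 / 2)]

lemma isCompact_preimage (y : Fin 6 → ℝ) (r : ℝ) : IsCompact (Inv ⁻¹' Metric.closedBall y r) := by
  refine Metric.isCompact_of_isClosed_isBounded
    (Metric.isClosed_closedBall.preimage contDiff_Inv.continuous) ?_
  refine (Metric.isBounded_iff_subset_closedBall (0 : E)).2 ⟨‖y‖ + r + 1, ?_⟩
  intro v hv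
  have h1 : ‖Inv v‖ ≤ ‖y‖ + r := by
    have h2 : ‖Inv v - y‖ ≤ r := by
      rw [← dist_eq_norm]
      exact hv
    have h3 : Inv v = y + (Inv v - y) := by ring
    rw [h3]
    exact (norm_add_le _ _).trans (by linarith)
  have h2 : ∀ i, |Inv v i| ≤ ‖y‖ + r := fun i => (norm_le_pi_norm (Inv v) i).trans h1
  have hu : v.1 0 ^ 2 + v.1 1 ^ 2 ≤ ‖y‖ + r := (le_abs_self _).trans (h2 0)
  have hp : v.2 0 ^ 2 + v.2 1 ^ 2 ≤ ‖y‖ + r := (le_abs_self _).trans (h2 1)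
  have hz : |v.1 2| ≤ ‖y‖ + r := h2 4
  have hpz : |v.2 2| ≤ ‖y‖ + r := h2 5
  have h0 : 0 ≤ ‖y‖ + r := (abs_nonneg _).trans hz
  rw [mem_closedBall_zero_iff, Prod.norm_def]
  refine max_le ?_ ?_
  · rw [pi_norm_le_iff_of_nonneg (by linarith)]
    intro i
    rw [Real.norm_eq_abs]
    fin_cases i
    · exact abs_le_of_sq_le (t := v.1 0) (by nlinarith [sq_nonneg (v.1 1)])
    · exact abs_le_of_sq_le (t := v.1 1) (by nlinarith [sq_nonneg (v.1 0)])
    · exact hz.trans (by linarith)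
  · rw [pi_norm_le_iff_of_nonneg (by linarith)]
    intro i
    rw [Real.norm_eq_abs]
    fin_cases i
    · exact abs_le_of_sq_le (t := v.2 0) (by nlinarith [sq_nonneg (v.2 1)])
    · exact abs_le_of_sq_le (t := v.2 1) (by nlinarith [sq_nonneg (v.2 0)])
    · exact hpz.trans (by linarith)

lemma exists_rot {y v : E} (hu : u y ≠ 0) (h : Inv v = Inv y) :
    ∃ c d : ℝ, c ^ 2 + d ^ 2 = 1 ∧ v = rot c d y := by
  have h0 : v.1 0 ^ 2 + v.1 1 ^ 2 = y.1 0 ^ 2 + y.1 1 ^ 2 := congrFun h 0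
  have h1 : v.2 0 ^ 2 + v.2 1 ^ 2 = y.2 0 ^ 2 + y.2 1 ^ 2 := congrFun h 1
  have h2 : v.1 0 * v.2 0 + v.1 1 * v.2 1 = y.1 0 * y.2 0 + y.1 1 * y.2 1 := congrFun h 2
  have h3 : v.1 0 * v.2 1 - v.1 1 * v.2 0 = y.1 0 * y.2 1 - y.1 1 * y.2 0 := congrFun h 3
  have h4 : v.1 2 = y.1 2 := congrFun h 4
  have h5 : v.2 2 = y.2 2 := congrFun h 5
  have hu' : y.1 0 ^ 2 + y.1 1 ^ 2 ≠ 0 := hu
  refine ⟨(y.1 0 * v.1 0 + y.1 1 * v.1 1) / (y.1 0 ^ 2 + y.1 1 ^ 2),
    (y.1 0 * v.1 1 - y.1 1 * v.1 0) / (y.1 0 ^ 2 + y.1 1 ^ 2), ?_, ?_⟩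
  · rw [div_pow, div_pow, ← add_div, div_eq_one_iff_eq (pow_ne_zero 2 hu')]
    linear_combination (y.1 0 ^ 2 + y.1 1 ^ 2) * h0
  · apply Prod.ext
    · funext i
      fin_cases i
      · change v.1 0 = (y.1 0 * v.1 0 + y.1 1 * v.1 1) / (y.1 0 ^ 2 + y.1 1 ^ 2) * y.1 0 -
          (y.1 0 * v.1 1 - y.1 1 * v.1 0) / (y.1 0 ^ 2 + y.1 1 ^ 2) * y.1 1
        field_simp
        ring
      · change v.1 1 = (y.1 0 * v.1 1 - y.1 1 * v.1 0) / (y.1 0 ^ 2 + y.1 1 ^ 2) * y.1 0 +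
          (y.1 0 * v.1 0 + y.1 1 * v.1 1) / (y.1 0 ^ 2 + y.1 1 ^ 2) * y.1 1
        field_simp
        ring
      · exact h4
    · funext i
      fin_cases i
      · change v.2 0 = (y.1 0 * v.1 0 + y.1 1 * v.1 1) / (y.1 0 ^ 2 + y.1 1 ^ 2) * y.2 0 -
          (y.1 0 * v.1 1 - y.1 1 * v.1 0) / (y.1 0 ^ 2 + y.1 1 ^ 2) * y.2 1
        field_simp
        linear_combination v.1 0 * h2 - v.1 1 * h3 - v.2 0 * h0
      · change v.2 1 = (y.1 0 * v.1 1 - y.1 1 * v.1 0) / (y.1 0 ^ 2 + y.1 1 ^ 2) * y.2 0 +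
          (y.1 0 * v.1 0 + y.1 1 * v.1 1) / (y.1 0 ^ 2 + y.1 1 ^ 2) * y.2 1
        field_simp
        linear_combination v.1 1 * h2 + v.1 0 * h3 - v.2 1 * h0
      · exact h5

theorem t_BUMP : S_BUMP := by
  intro V y hV hyV huy hrot
  -- the radius
  obtain ⟨r, hr, hrV⟩ : ∃ r : ℝ, 0 < r ∧ Inv ⁻¹' Metric.closedBall (Inv y) r ⊆ V := by
    set K : Set E := Inv ⁻¹' Metric.closedBall (Inv y) 1 ∩ Vᶜ with hK
    have hKc : IsCompact K := (isCompact_preimage (Inv y) 1).inter_right hV.isClosed_compl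
    rcases K.eq_empty_or_nonempty with h0 | hne
    · refine ⟨1, one_pos, ?_⟩
      intro v hv
      by_contra hvV
      have : v ∈ K := ⟨hv, hvV⟩
      rw [h0] at this
      exact this
    · obtain ⟨v0, hv0, hmin⟩ := hKc.exists_isMinOn hne
        (f := fun v => dist (Inv v) (Inv y))
        ((contDiff_Inv.continuous.dist continuous_const).continuousOn)
      have hpos : 0 < dist (Inv v0) (Inv y) := by
        rw [dist_pos]
        intro heq
        obtain ⟨c, d, hcd, h1⟩ := exists_rot huy heq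
        apply hv0.2
        rw [h1]
        exact hrot c d hcd y hyV
      refine ⟨min 1 (dist (Inv v0) (Inv y) / 2), lt_min one_pos (by linarith), ?_⟩
      intro v hv
      by_contra hvV
      have h1 : dist (Inv v) (Inv y) ≤ min 1 (dist (Inv v0) (Inv y) / 2) := hv
      have h2 : v ∈ K := ⟨h1.trans (min_le_left _ _), hvV⟩
      have h3 : dist (Inv v0) (Inv y) ≤ dist (Inv v) (Inv y) := hmin h2
      have h4 := h1.trans (min_le_right _ _)
      linarith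
  let b : ContDiffBump (Inv y) := ⟨r / 2, r, by linarith, by linarith⟩
  have hts : tsupport (fun v => b (Inv v)) ⊆ Inv ⁻¹' Metric.closedBall (Inv y) r := by
    refine closure_minimal ?_ (Metric.isClosed_closedBall.preimage contDiff_Inv.continuous)
    intro v hv
    have h1 : Inv v ∈ Function.support b := hv
    rw [b.support_eq] at h1
    exact Metric.ball_subset_closedBall h1
  refine ⟨fun v => b (Inv v), b.contDiff.comp contDiff_Inv, ?_, hts.trans hrV, ?_, ?_⟩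
  · exact (isCompact_preimage (Inv y) r).of_isClosed_subset (isClosed_tsupport _) hts
  · intro c d hcd v
    change b (Inv (rot c d v)) = b (Inv v)
    rw [inv_rot c d hcd]
  · exact contDiff_Inv.continuous.continuousAt.eventually b.eventuallyEq_one

end Pool.Agent.W22.KH
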