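import Pool.Agent.W820.KH.Defs

/-! KH-EPS: summation of smooth functions with small coefficients. -/

set_option autoImplicit false

open Set Filter Topology
open scoped ContDiff

namespace Pool.Agent.W22.KH

open Pool.Agent.W820.KH

theorem t_EPS : S_EPS := by
  intro G _ _ _ F hF hK
  have hb : ∀ i m j : ℕ, ∃ C : ℝ, ∀ x, ‖iteratedFDeriv ℝ i (F m j) x‖ ≤ C := by
    intro i m j
    exact ((hF m j).continuous_iteratedFDeriv (m := i) (by exact_mod_cast le_top)).bounded_above_of_compact_support
      ((hK m j).iteratedFDeriv i)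
  choose C hC using hb
  have hC0 : ∀ i m j, 0 ≤ C i m j := fun i m j => (norm_nonneg _).trans (hC i m j 0)
  let D : ℕ → ℝ := fun j => ∑ m ∈ Finset.range (j + 1), ∑ i ∈ Finset.range (j + 2), C i m j
  have hD0 : ∀ j, 0 ≤ D j := fun j =>
    Finset.sum_nonneg fun m _ => Finset.sum_nonneg fun i _ => hC0 i m j
  let ε : ℕ → ℝ := fun j => (1 / 2) ^ j / (1 + D j)
  have hε : ∀ j, 0 < ε j := fun j => div_pos (by positivity) (by have := hD0 j; linarith)
  have hεC : ∀ i m j, m ≤ j → i ≤ j + 1 → ε j * C i m j ≤ (1 / 2) ^ j := by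
    intro i m j hm hi
    have h1 : C i m j ≤ D j := by
      have h2 : C i m j ≤ ∑ i ∈ Finset.range (j + 2), C i m j :=
        Finset.single_le_sum (f := fun i => C i m j) (fun i _ => hC0 i m j)
          (Finset.mem_range.2 (by omega))
      have h3 : (∑ i ∈ Finset.range (j + 2), C i m j) ≤ D j :=
        Finset.single_le_sum (f := fun m => ∑ i ∈ Finset.range (j + 2), C i m j)
          (fun m _ => Finset.sum_nonneg fun i _ => hC0 i m j) (Finset.mem_range.2 (by omega))
      exact h2.trans h3
    have h4 : 0 < 1 + D j := by have := hD0 j; linarith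
    change (1 / 2) ^ j / (1 + D j) * C i m j ≤ (1 / 2) ^ j
    rw [div_mul_eq_mul_div, div_le_iff₀ h4]
    exact mul_le_mul_of_nonneg_left (by linarith) (by positivity)
  refine ⟨ε, hε, ?_, ?_⟩
  · intro m j hmj x
    constructor
    · refine le_trans (mul_le_mul_of_nonneg_left ?_ (hε j).le) (hεC 0 m j hmj (by omega))
      rw [← norm_iteratedFDeriv_zero (𝕜 := ℝ) (f := F m j)]
      exact hC 0 m j x
    · refine le_trans (mul_le_mul_of_nonneg_left ?_ (hε j).le) (hεC 1 m j hmj (by omega))
      rw [← norm_iteratedFDeriv_one (𝕜 := ℝ) (F m j)]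
      exact hC 1 m j x
  · intro m c hc
    let f : ℕ → E → G := fun j x => (c j * ε j) • F m j x
    let v : ℕ → ℕ → ℝ := fun i j => ε j * C i m j
    have hv : ∀ i, Summable (v i) := by
      intro i
      refine Summable.of_norm_bounded_eventually_nat (g := fun j => (1 / 2 : ℝ) ^ j)
        (summable_geometric_of_lt_one (by norm_num) (by norm_num)) ?_
      filter_upwards [eventually_ge_atTop (max m i)] with j hj
      have h1 : 0 ≤ v i j := mul_nonneg (hε j).le (hC0 i m j)
      rw [Real.norm_of_nonneg h1]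
      exact hεC i m j (le_trans (le_max_left _ _) hj)
        (le_trans (le_trans (le_max_right _ _) hj) (Nat.le_succ j))
    have hfi : ∀ (i j : ℕ) (x : E), ‖iteratedFDeriv ℝ i (f j) x‖ ≤ v i j := by
      intro i j x
      have h1 : iteratedFDeriv ℝ i (f j) x = (c j * ε j) • iteratedFDeriv ℝ i (F m j) x :=
        iteratedFDeriv_const_smul_apply' (((hF m j).of_le (by exact_mod_cast le_top)).contDiffAt)
      rw [h1, norm_smul, Real.norm_eq_abs, abs_mul, abs_of_pos (hε j)]
      refine mul_le_mul ?_ (hC i m j x) (norm_nonneg _) (hε j).le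
      exact mul_le_of_le_one_left (hε j).le (hc j)
    have hf0 : ∀ x, Summable fun j => f j x := by
      intro x
      refine Summable.of_norm_bounded (hv 0) fun j => ?_
      rw [← norm_iteratedFDeriv_zero (𝕜 := ℝ) (f := f j)]
      exact hfi 0 j x
    have hfs : ∀ j, ContDiff ℝ ∞ (f j) := fun j => contDiff_const.smul (hF m j)
    have hfd : ∀ j, Differentiable ℝ (f j) := fun j => (hfs j).differentiable (by simp)
    have hfd' : ∀ j x, fderiv ℝ (f j) x = (c j * ε j) • fderiv ℝ (F m j) x := fun j x =>
      fderiv_fun_const_smul ((hF m j).differentiable (by simp) x) _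
    have hf1 : ∀ j x, ‖fderiv ℝ (f j) x‖ ≤ v 1 j := by
      intro j x
      rw [← norm_iteratedFDeriv_one (𝕜 := ℝ) (f j)]
      exact hfi 1 j x
    refine ⟨hf0, ?_, ?_⟩
    · exact contDiff_tsum (N := ⊤) (f := f) (v := v) hfs (fun i _ => hv i) (fun i j x _ => hfi i j x)
    · intro x
      refine ⟨?_, ?_⟩
      · refine Summable.of_nonneg_of_le (fun j => norm_nonneg _) (fun j => ?_) (hv 1)
        rw [← hfd']
        exact hf1 j x
      · have h2 := congrFun (fderiv_tsum (hv 1) hfd hf1 (hf0 0)) x
        change fderiv ℝ (fun x => ∑' j, f j x) x = _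
        rw [h2]
        exact tsum_congr fun j => hfd' j x

end Pool.Agent.W22.KH
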