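import Pool.Agent.W820.KH.Defs

/-! KH-LIN: a direction killed by `dH`, `dL`, `dJ` but not by one of the invariants. -/

set_option autoImplicit false

open Set Filter Topology
open scoped ContDiff

namespace Pool.Agent.W22.KH

open Pool.Agent.W820.KH

/-- position coordinates -/
noncomputable def pr1 (i : Fin 3) : E →L[ℝ] ℝ :=
  (ContinuousLinearMap.proj (R := ℝ) (φ := fun _ : Fin 3 => ℝ) i).comp
    (ContinuousLinearMap.fst ℝ (Fin 3 → ℝ) (Fin 3 → ℝ))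

/-- momentum coordinates -/
noncomputable def pr2 (i : Fin 3) : E →L[ℝ] ℝ :=
  (ContinuousLinearMap.proj (R := ℝ) (φ := fun _ : Fin 3 => ℝ) i).comp
    (ContinuousLinearMap.snd ℝ (Fin 3 → ℝ) (Fin 3 → ℝ))

lemma pr1_apply (i : Fin 3) (v : E) : pr1 i v = v.1 i := rfl

lemma pr2_apply (i : Fin 3) (v : E) : pr2 i v = v.2 i := rfl

lemma hd1 (i : Fin 3) (y : E) : HasFDerivAt (fun v : E => v.1 i) (pr1 i) y := (pr1 i).hasFDerivAt

lemma hd2 (i : Fin 3) (y : E) : HasFDerivAt (fun v : E => v.2 i) (pr2 i) y := (pr2 i).hasFDerivAt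

lemma fderiv_u (y w : E) : fderiv ℝ u y w = 2 * y.1 0 * w.1 0 + 2 * y.1 1 * w.1 1 := by
  have h : HasFDerivAt u ((y.1 0 • pr1 0 + y.1 0 • pr1 0) + (y.1 1 • pr1 1 + y.1 1 • pr1 1)) y := by
    have h1 := ((hd1 0 y).mul (hd1 0 y)).add ((hd1 1 y).mul (hd1 1 y))
    refine h1.congr_of_eventuallyEq (Eventually.of_forall fun v => ?_)
    simp only [u, Pi.add_apply, Pi.mul_apply]
    ring
  rw [h.fderiv]
  simp only [_root_.add_apply, _root_.smul_apply, pr1_apply, smul_eq_mul]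
  ring

lemma fderiv_L (y w : E) : fderiv ℝ L y w =
    y.1 0 * w.2 1 + y.2 1 * w.1 0 - (y.1 1 * w.2 0 + y.2 0 * w.1 1) := by
  have h : HasFDerivAt L ((y.1 0 • pr2 1 + y.2 1 • pr1 0) - (y.1 1 • pr2 0 + y.2 0 • pr1 1)) y :=
    ((hd1 0 y).mul (hd2 1 y)).sub ((hd1 1 y).mul (hd2 0 y))
  rw [h.fderiv]
  simp only [_root_.add_apply, _root_.sub_apply,
    _root_.smul_apply, pr1_apply, pr2_apply, smul_eq_mul]

theorem t_LIN : S_LIN := by
  intro y _ hu
  by_contra hcon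
  push Not at hcon
  have hE : Module.finrank ℝ E = 6 := by
    rw [Module.finrank_prod, Module.finrank_fin_fun]
  let A : E →ₗ[ℝ] (Fin 3 → ℝ) :=
    LinearMap.pi ![(fderiv ℝ H y : E →ₗ[ℝ] ℝ), (fderiv ℝ L y : E →ₗ[ℝ] ℝ), (fderiv ℝ J y : E →ₗ[ℝ] ℝ)]
  have hA : ∀ w, A w = 0 → fderiv ℝ H y w = 0 ∧ fderiv ℝ L y w = 0 ∧ fderiv ℝ J y w = 0 := by
    intro w hw
    exact ⟨congrFun hw 0, congrFun hw 1, congrFun hw 2⟩
  have h1 := LinearMap.finrank_range_add_finrank_ker A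
  have h2 : Module.finrank ℝ (LinearMap.range A) ≤ 3 := by
    refine (Submodule.finrank_le _).trans ?_
    rw [Module.finrank_fin_fun]
  let C : E →ₗ[ℝ] (Fin 2 → ℝ) :=
    LinearMap.pi ![((y.1 0 • pr1 1 - y.1 1 • pr1 0 : E →L[ℝ] ℝ) : E →ₗ[ℝ] ℝ),
      ((y.1 0 • pr2 0 + y.1 1 • pr2 1 : E →L[ℝ] ℝ) : E →ₗ[ℝ] ℝ)]
  have hC : ∀ w, C w = 0 → y.1 0 * w.1 1 - y.1 1 * w.1 0 = 0 ∧
      y.1 0 * w.2 0 + y.1 1 * w.2 1 = 0 := by
    intro w hw
    exact ⟨congrFun hw 0, congrFun hw 1⟩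
  have hinj : Function.Injective (C.domRestrict (LinearMap.ker A)) := by
    rw [← LinearMap.ker_eq_bot, LinearMap.ker_eq_bot']
    rintro ⟨w, hw⟩ hCw
    obtain ⟨hH, hL, hJ⟩ := hA w hw
    obtain ⟨hu', hz, hpz⟩ := hcon w hH hL hJ
    obtain ⟨hc1, hc2⟩ := hC w hCw
    rw [fderiv_u] at hu'
    rw [fderiv_L] at hL
    have hu1 : y.1 0 ^ 2 + y.1 1 ^ 2 ≠ 0 := hu
    have e0 : w.1 0 = 0 := by
      have : (y.1 0 ^ 2 + y.1 1 ^ 2) * w.1 0 = 0 := by
        linear_combination (y.1 0 / 2) * hu' - y.1 1 * hc1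
      exact (mul_eq_zero.1 this).resolve_left hu1
    have e1 : w.1 1 = 0 := by
      have : (y.1 0 ^ 2 + y.1 1 ^ 2) * w.1 1 = 0 := by
        linear_combination (y.1 1 / 2) * hu' + y.1 0 * hc1
      exact (mul_eq_zero.1 this).resolve_left hu1
    rw [e0, e1] at hL
    have e2 : w.2 0 = 0 := by
      have : (y.1 0 ^ 2 + y.1 1 ^ 2) * w.2 0 = 0 := by
        linear_combination y.1 0 * hc2 - y.1 1 * hL
      exact (mul_eq_zero.1 this).resolve_left hu1
    have e3 : w.2 1 = 0 := by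
      have : (y.1 0 ^ 2 + y.1 1 ^ 2) * w.2 1 = 0 := by
        linear_combination y.1 1 * hc2 + y.1 0 * hL
      exact (mul_eq_zero.1 this).resolve_left hu1
    apply Subtype.ext
    apply Prod.ext
    · funext i
      fin_cases i
      · exact e0
      · exact e1
      · exact hz
    · funext i
      fin_cases i
      · exact e2
      · exact e3
      · exact hpz
  have h3 := LinearMap.finrank_le_finrank_of_injective hinj
  rw [Module.finrank_fin_fun] at h3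
  omega

end Pool.Agent.W22.KH
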