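import Pool.Agent.W820.KH.Defs

/-! KH-SEG: orbit segments with endpoints in a compact set and bounded `B` have bounded length. -/

set_option autoImplicit false

open Set Filter Topology
open scoped ContDiff

namespace Pool.Agent.W22.KH

open Pool.Agent.W820.KH

/-- Cauchy mean value inequality -/
lemma cmv {a b a' b' : ℝ → ℝ} (ha : ∀ t, HasDerivAt a (a' t) t) (hb : ∀ t, HasDerivAt b (b' t) t)
    {C τ : ℝ} (hC : ∀ t ∈ uIcc 0 τ, |a' t| ≤ C * |b' t|) (hb0 : ∀ t, b' t ≠ 0) :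
    |a τ - a 0| ≤ C * |b τ - b 0| := by
  have key : ∀ c ∈ uIcc 0 τ, (b τ - b 0) * a' c = (a τ - a 0) * b' c →
      |a τ - a 0| ≤ C * |b τ - b 0| := by
    intro c hc h
    have h1 : 0 < |b' c| := abs_pos.2 (hb0 c)
    have h2 : |a τ - a 0| * |b' c| = |b τ - b 0| * |a' c| := by
      rw [← abs_mul, ← abs_mul, h]
    have h3 := mul_le_mul_of_nonneg_left (hC c hc) (abs_nonneg (b τ - b 0))
    have h4 : |a τ - a 0| * |b' c| ≤ (C * |b τ - b 0|) * |b' c| := by
      rw [h2]
      calc _ ≤ _ := h3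
        _ = _ := by ring
    exact le_of_mul_le_mul_right h4 h1
  rcases lt_trichotomy τ 0 with h | h | h
  · obtain ⟨c, hc, h1⟩ := exists_ratio_hasDerivAt_eq_ratio_slope b b' h
      (fun t _ => (hb t).continuousAt.continuousWithinAt) (fun t _ => hb t) a a'
      (fun t _ => (ha t).continuousAt.continuousWithinAt) (fun t _ => ha t)
    refine key c ?_ ?_
    · rw [uIcc_of_ge h.le]
      exact Ioo_subset_Icc_self hc
    · linear_combination h1
  · subst h
    simp
  · obtain ⟨c, hc, h1⟩ := exists_ratio_hasDerivAt_eq_ratio_slope b b' h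
      (fun t _ => (hb t).continuousAt.continuousWithinAt) (fun t _ => hb t) a a'
      (fun t _ => (ha t).continuousAt.continuousWithinAt) (fun t _ => ha t)
    refine key c ?_ ?_
    · rw [uIcc_of_le h.le]
      exact Ioo_subset_Icc_self hc
    · linear_combination -h1

lemma k_pos : 0 < k := by
  unfold k
  positivity

lemma cont_x (i : Fin 3) : Continuous (fun v : E => v.1 i) := (continuous_apply i).comp continuous_fst

lemma cont_p (i : Fin 3) : Continuous (fun v : E => v.2 i) := (continuous_apply i).comp continuous_snd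

lemma cont_u : Continuous u := ((cont_x 0).pow 2).add ((cont_x 1).pow 2)

lemma cont_S : Continuous S := (cont_u.pow 2).add (continuous_const.mul ((cont_x 2).pow 2))

lemma cont_s : Continuous s := Real.continuous_sqrt.comp cont_S

lemma cont_L : Continuous L := ((cont_x 0).mul (cont_p 1)).sub ((cont_x 1).mul (cont_p 0))

lemma cont_J : Continuous J :=
  (((cont_x 0).mul (cont_p 0)).add ((cont_x 1).mul (cont_p 1))).add
    (continuous_const.mul ((cont_x 2).mul (cont_p 2)))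

lemma u_nonneg (v : E) : 0 ≤ u v := by unfold u; positivity

lemma S_nonneg (v : E) : 0 ≤ S v := by unfold S; positivity

lemma s_nonneg (v : E) : 0 ≤ s v := Real.sqrt_nonneg _

lemma s_sq (v : E) : s v ^ 2 = u v ^ 2 + 16 * v.1 2 ^ 2 := Real.sq_sqrt (S_nonneg v)

lemma S_pos {v : E} (hv : v ∈ P) : 0 < S v := by
  refine lt_of_le_of_ne (S_nonneg v) fun h => hv ?_
  have h1 : u v ^ 2 + 16 * v.1 2 ^ 2 = 0 := h.symm
  have h2 : u v ^ 2 = 0 := by nlinarith [sq_nonneg (u v), sq_nonneg (v.1 2)]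
  have h3 : v.1 2 ^ 2 = 0 := by nlinarith [sq_nonneg (u v), sq_nonneg (v.1 2)]
  have h4 : v.1 0 ^ 2 + v.1 1 ^ 2 = 0 := pow_eq_zero_iff (two_ne_zero) |>.1 h2
  have h5 : v.1 0 = 0 := by
    have : v.1 0 ^ 2 = 0 := by nlinarith [sq_nonneg (v.1 0), sq_nonneg (v.1 1)]
    exact pow_eq_zero_iff (two_ne_zero) |>.1 this
  have h6 : v.1 1 = 0 := by
    have : v.1 1 ^ 2 = 0 := by nlinarith [sq_nonneg (v.1 0), sq_nonneg (v.1 1)]
    exact pow_eq_zero_iff (two_ne_zero) |>.1 this
  have h7 : v.1 2 = 0 := pow_eq_zero_iff (two_ne_zero) |>.1 h3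
  funext i
  fin_cases i
  · exact h5
  · exact h6
  · exact h7

lemma s_pos {v : E} (hv : v ∈ P) : 0 < s v := Real.sqrt_pos.2 (S_pos hv)

lemma contOn_H : ContinuousOn H P := by
  have h1 : Continuous PX := (cont_p 0).sub (((cont_x 1).mul (cont_p 2)).div_const 2)
  have h2 : Continuous PY := (cont_p 1).add (((cont_x 0).mul (cont_p 2)).div_const 2)
  refine ContinuousOn.sub ?_ ?_
  · exact (((h1.pow 2).add (h2.pow 2)).div_const 2).continuousOn
  · exact continuousOn_const.div cont_s.continuousOn fun v hv => (s_pos hv).ne'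

lemma u_le_s (v : E) : u v ≤ s v := by
  apply Real.le_sqrt_of_sq_le
  unfold S
  nlinarith [sq_nonneg (v.1 2)]

lemma z_le_s (v : E) : 4 * |v.1 2| ≤ s v := by
  apply Real.le_sqrt_of_sq_le
  unfold S
  rw [mul_pow, sq_abs]
  nlinarith [sq_nonneg (u v)]

lemma L_sq_le (v : E) : L v ^ 2 ≤ u v * (v.2 0 ^ 2 + v.2 1 ^ 2) := by
  unfold L u
  nlinarith [sq_nonneg (v.1 0 * v.2 0 + v.1 1 * v.2 1)]

/-- the compact region -/
def CC (u0 s1 M b : ℝ) : Set E :=
  {v | u0 ≤ u v ∧ s v ≤ s1 ∧ v.2 0 ^ 2 + v.2 1 ^ 2 ≤ 2 * M ∧ v.2 2 ^ 2 ≤ b}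

lemma abs_le_of_sq_le' {t M : ℝ} (h : t ^ 2 ≤ M) : |t| ≤ M + 1 := by
  rw [abs_le]
  constructor <;> nlinarith [sq_nonneg (t - 1 / 2), sq_nonneg (t + 1 / 2)]

lemma isCompact_CC (u0 s1 M b : ℝ) : IsCompact (CC u0 s1 M b) := by
  refine Metric.isCompact_of_isClosed_isBounded ?_ ?_
  · refine (isClosed_le continuous_const cont_u).inter ((isClosed_le cont_s continuous_const).inter
      ((isClosed_le (((cont_p 0).pow 2).add ((cont_p 1).pow 2)) continuous_const).inter
        (isClosed_le ((cont_p 2).pow 2) continuous_const)))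
  · refine (Metric.isBounded_iff_subset_closedBall (0 : E)).2
      ⟨max (max (s1 + 1) (2 * M + 1)) (b + 1), ?_⟩
    rintro v ⟨-, h2, h3, h4⟩
    have hu := (u_le_s v).trans h2
    have hz := (z_le_s v).trans h2
    have h0 : 0 ≤ s1 := (s_nonneg v).trans h2
    have e1 : s1 + 1 ≤ max (max (s1 + 1) (2 * M + 1)) (b + 1) :=
      (le_max_left _ _).trans (le_max_left _ _)
    have e2 : 2 * M + 1 ≤ max (max (s1 + 1) (2 * M + 1)) (b + 1) :=
      (le_max_right _ _).trans (le_max_left _ _)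
    have e3 : b + 1 ≤ max (max (s1 + 1) (2 * M + 1)) (b + 1) := le_max_right _ _
    have hu' : v.1 0 ^ 2 + v.1 1 ^ 2 ≤ s1 := hu
    rw [mem_closedBall_zero_iff, Prod.norm_def]
    refine max_le ?_ ?_
    · rw [pi_norm_le_iff_of_nonneg (by linarith)]
      intro i
      rw [Real.norm_eq_abs]
      fin_cases i
      · exact (abs_le_of_sq_le' (t := v.1 0) (M := s1) (by nlinarith [sq_nonneg (v.1 1)])).trans e1
      · exact (abs_le_of_sq_le' (t := v.1 1) (M := s1) (by nlinarith [sq_nonneg (v.1 0)])).trans e1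
      · have : |v.1 2| ≤ s1 + 1 := by linarith [abs_nonneg (v.1 2)]
        exact this.trans e1
    · rw [pi_norm_le_iff_of_nonneg (by linarith)]
      intro i
      rw [Real.norm_eq_abs]
      fin_cases i
      · exact (abs_le_of_sq_le' (t := v.2 0) (M := 2 * M)
          (by nlinarith [sq_nonneg (v.2 1)])).trans e2
      · exact (abs_le_of_sq_le' (t := v.2 1) (M := 2 * M)
          (by nlinarith [sq_nonneg (v.2 0)])).trans e2
      · exact (abs_le_of_sq_le' (t := v.2 2) (M := b) h4).trans e3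

lemma CC_subset_P {u0 s1 M b : ℝ} (hu0 : 0 < u0) : CC u0 s1 M b ⊆ P := by
  rintro v ⟨h1, -⟩ h0
  have : u v = 0 := by
    unfold u
    rw [h0]
    simp
  linarith

/-- positive lower bounds on compact sets -/
lemma exists_lb {K : Set E} (hK : IsCompact K) {f : E → ℝ} (hf : ContinuousOn f K)
    (hpos : ∀ v ∈ K, 0 < f v) : ∃ c : ℝ, 0 < c ∧ ∀ v ∈ K, c ≤ f v := by
  rcases K.eq_empty_or_nonempty with rfl | hne
  · exact ⟨1, one_pos, fun v hv => hv.elim⟩
  · obtain ⟨v0, hv0, hmin⟩ := hK.exists_isMinOn hne hf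
    exact ⟨f v0, hpos v0 hv0, fun v hv => hmin hv⟩

/-- nonnegative upper bounds on compact sets -/
lemma exists_ub {K : Set E} (hK : IsCompact K) {f : E → ℝ} (hf : ContinuousOn f K) :
    ∃ c : ℝ, 0 ≤ c ∧ ∀ v ∈ K, |f v| ≤ c := by
  obtain ⟨C, hC⟩ := hK.exists_bound_of_continuousOn hf
  exact ⟨max C 0, le_max_right _ _, fun v hv => (hC v hv).trans (le_max_left _ _)⟩

theorem t_SEG : S_SEG := by
  intro φ g hφ K hK hKW M
  have hKP : K ⊆ P := fun v hv => (hKW hv).1
  obtain ⟨h0, hh0, hH⟩ := exists_lb hK (f := fun v => |H v|) ((contOn_H.mono hKP).abs)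
    (fun v hv => abs_pos.2 (hKW hv).2.1)
  obtain ⟨l0, hl0, hL⟩ := exists_lb hK (f := fun v => |L v|) (cont_L.continuousOn.abs)
    (fun v hv => abs_pos.2 (hKW hv).2.2)
  obtain ⟨l1, hl1, hL1⟩ := exists_ub hK cont_L.continuousOn
  obtain ⟨j0, hj0, hJ⟩ := exists_ub hK cont_J.continuousOn
  obtain ⟨s0, hs0, hs⟩ := exists_ub hK cont_s.continuousOn
  set C : ℝ := (j0 + l1) / h0 with hCdef
  have hC0 : 0 ≤ C := by positivity
  set s1 : ℝ := s0 + C * (2 * j0) with hs1
  set M' : ℝ := max M 1 with hM'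
  have hM'0 : 0 < M' := lt_of_lt_of_le one_pos (le_max_right _ _)
  set u0 : ℝ := l0 ^ 2 / (2 * M') with hu0
  have hu0pos : 0 < u0 := by positivity
  set b : ℝ := 8 * M' / u0 with hb
  obtain ⟨g0, hg0, hg⟩ := exists_lb (isCompact_CC u0 s1 M' b) (f := g)
    hφ.gcont.continuousOn (fun v hv => hφ.gpos v (CC_subset_P hu0pos hv))
  refine ⟨1 / (2 * h0 * g0) * (2 * j0), ?_⟩
  intro x hx σ hσ hB
  have hxP : x ∈ P := hKP hx
  have hHx : H x ≠ 0 := (hKW hx).2.1
  have hfP : ∀ t, φ t x ∈ P := fun t => hφ.mapsP x hxP t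
  have hgp : ∀ t, 0 < g (φ t x) := fun t => hφ.gpos _ (hfP t)
  have hJd : ∀ t, HasDerivAt (fun t => J (φ t x)) (2 * H x * g (φ t x)) t := hφ.dJ x hxP
  have hJ0 : ∀ t, 2 * H x * g (φ t x) ≠ 0 := fun t =>
    mul_ne_zero (mul_ne_zero two_ne_zero hHx) (hgp t).ne'
  have hJx : |J x| ≤ j0 := hJ x hx
  have hJσ : |J (φ σ x)| ≤ j0 := hJ _ hσ
  -- `J` on the segment
  have hJseg : ∀ τ ∈ uIcc 0 σ, |J (φ τ x)| ≤ j0 := by
    intro τ hτ
    have hdiff : Differentiable ℝ (fun t => J (φ t x)) := fun t => (hJd t).differentiableAt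
    have hder : ∀ t, deriv (fun t => J (φ t x)) t = 2 * H x * g (φ t x) := fun t => (hJd t).deriv
    have hmem : J (φ τ x) ∈ uIcc (J (φ 0 x)) (J (φ σ x)) := by
      rcases lt_or_gt_of_ne hHx with hneg | hpos
      · have hanti : Antitone (fun t => J (φ t x)) := by
          refine antitone_of_deriv_nonpos hdiff fun t => ?_
          rw [hder]
          nlinarith [hgp t]
        exact hanti.mapsTo_uIcc hτ
      · have hmono : Monotone (fun t => J (φ t x)) := by
          refine monotone_of_deriv_nonneg hdiff fun t => ?_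
          rw [hder]
          have := hgp t
          positivity
        exact hmono.mapsTo_uIcc hτ
    rw [hφ.zero] at hmem
    have h1 : J (φ τ x) ∈ Icc (-j0) j0 :=
      uIcc_subset_Icc (abs_le.1 hJx) (abs_le.1 hJσ) hmem
    exact abs_le.2 h1
  have hdist : ∀ τ ∈ uIcc 0 σ, |J (φ τ x) - J x| ≤ 2 * j0 := by
    intro τ hτ
    have h1 := abs_le.1 (hJseg τ hτ)
    have h2 := abs_le.1 hJx
    rw [abs_le]
    constructor <;> linarith [h1.1, h1.2, h2.1, h2.2]
  have hHx' : h0 ≤ |H x| := hH x hx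
  have hLx : |L x| ≤ l1 := hL1 x hx
  -- `s` on the segment
  have hsseg : ∀ τ ∈ uIcc 0 σ, s (φ τ x) ≤ s1 := by
    intro τ hτ
    have hsub : uIcc 0 τ ⊆ uIcc 0 σ := uIcc_subset_uIcc left_mem_uIcc hτ
    have h1 := cmv (a := fun t => s (φ t x)) (b := fun t => J (φ t x)) (hφ.ds x hxP) hJd
      (C := C) (τ := τ) (by
        intro t ht
        have hsp := s_pos (hfP t)
        have hgt := hgp t
        have e1 : |J (φ t x) * u (φ t x) + 4 * L (φ t x) * (φ t x).1 2| ≤
            (j0 + l1) * s (φ t x) := by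
          have e2 : |J (φ t x) * u (φ t x)| ≤ j0 * s (φ t x) := by
            rw [abs_mul, abs_of_nonneg (u_nonneg _)]
            exact mul_le_mul (hJseg t (hsub ht)) (u_le_s _) (u_nonneg _) hj0
          have e3 : |4 * L (φ t x) * (φ t x).1 2| ≤ l1 * s (φ t x) := by
            rw [hφ.Lc x hxP, abs_mul, abs_mul, abs_of_pos (by norm_num : (0 : ℝ) < 4)]
            calc 4 * |L x| * |(φ t x).1 2| = |L x| * (4 * |(φ t x).1 2|) := by ring
              _ ≤ l1 * s (φ t x) := mul_le_mul hLx (z_le_s _) (by positivity) hl1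
          calc _ ≤ |J (φ t x) * u (φ t x)| + |4 * L (φ t x) * (φ t x).1 2| := abs_add_le _ _
            _ ≤ j0 * s (φ t x) + l1 * s (φ t x) := add_le_add e2 e3
            _ = _ := by ring
        have e4 : |2 * (J (φ t x) * u (φ t x) + 4 * L (φ t x) * (φ t x).1 2) / s (φ t x) *
            g (φ t x)| ≤ 2 * (j0 + l1) * g (φ t x) := by
          rw [abs_mul, abs_div, abs_mul, abs_of_pos hsp, abs_of_pos hgt,
            abs_of_pos (by norm_num : (0 : ℝ) < 2)]
          refine mul_le_mul_of_nonneg_right ?_ hgt.le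
          rw [div_le_iff₀ hsp]
          linarith
        refine e4.trans ?_
        rw [abs_mul, abs_mul, abs_of_pos hgt, abs_of_pos (by norm_num : (0 : ℝ) < 2)]
        have e5 : j0 + l1 = C * h0 := by
          rw [hCdef]
          field_simp
        rw [e5]
        calc 2 * (C * h0) * g (φ t x) = C * (2 * h0 * g (φ t x)) := by ring
          _ ≤ C * (2 * |H x| * g (φ t x)) := by
            refine mul_le_mul_of_nonneg_left ?_ hC0
            refine mul_le_mul_of_nonneg_right ?_ hgt.le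
            linarith) hJ0
    simp only [hφ.zero] at h1
    have h2 : C * |J (φ τ x) - J x| ≤ C * (2 * j0) :=
      mul_le_mul_of_nonneg_left (hdist τ hτ) hC0
    have h3 := (abs_le.1 (h1.trans h2)).2
    have h4 : s x ≤ s0 := (le_abs_self _).trans (hs x hx)
    rw [hs1]
    linarith
  -- the segment stays in the compact region
  have hCC : ∀ τ ∈ uIcc 0 σ, φ τ x ∈ CC u0 s1 M' b := by
    intro τ hτ
    have h1 : B (φ τ x) ≤ M' := (hB τ hτ).trans (le_max_left _ _)
    have h2 : (((φ τ x).2 0 ^ 2 + (φ τ x).2 1 ^ 2) / 2 + u (φ τ x) * (φ τ x).2 2 ^ 2 / 8) ≤ M' := h1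
    have h3 : 0 ≤ u (φ τ x) * (φ τ x).2 2 ^ 2 := mul_nonneg (u_nonneg _) (sq_nonneg _)
    have h4 : (φ τ x).2 0 ^ 2 + (φ τ x).2 1 ^ 2 ≤ 2 * M' := by linarith
    have h5 : l0 ^ 2 ≤ u (φ τ x) * (2 * M') := by
      have e1 : l0 ^ 2 ≤ L (φ τ x) ^ 2 := by
        rw [hφ.Lc x hxP, ← sq_abs (L x)]
        exact pow_le_pow_left₀ hl0.le (hL x hx) 2
      exact (e1.trans (L_sq_le _)).trans (mul_le_mul_of_nonneg_left h4 (u_nonneg _))
    have h6 : u0 ≤ u (φ τ x) := by
      rw [hu0, div_le_iff₀ (by positivity)]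
      exact h5
    refine ⟨h6, hsseg τ hτ, h4, ?_⟩
    rw [hb, le_div_iff₀ hu0pos]
    have h7 : (φ τ x).2 2 ^ 2 * u0 ≤ (φ τ x).2 2 ^ 2 * u (φ τ x) :=
      mul_le_mul_of_nonneg_left h6 (sq_nonneg _)
    nlinarith [sq_nonneg ((φ τ x).2 0), sq_nonneg ((φ τ x).2 1)]
  -- conclusion
  have h1 := cmv (a := fun t => t) (a' := fun _ => 1) (b := fun t => J (φ t x))
    (fun t => hasDerivAt_id t) hJd (C := 1 / (2 * h0 * g0)) (τ := σ) (by
      intro t ht
      have hgt := hgp t
      have e1 : g0 ≤ g (φ t x) := hg _ (hCC t ht)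
      rw [abs_one, abs_mul, abs_mul, abs_of_pos hgt, abs_of_pos (by norm_num : (0 : ℝ) < 2),
        one_div, inv_mul_eq_div, le_div_iff₀ (by positivity), one_mul]
      calc 2 * h0 * g0 ≤ 2 * |H x| * g0 := by
            refine mul_le_mul_of_nonneg_right ?_ hg0.le
            linarith
        _ ≤ 2 * |H x| * g (φ t x) := mul_le_mul_of_nonneg_left e1 (by positivity)) hJ0
  simp only [hφ.zero, sub_zero] at h1
  refine h1.trans (mul_le_mul_of_nonneg_left (hdist σ right_mem_uIcc) (by positivity))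

end Pool.Agent.W22.KH
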